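import Pool.Agent.Helper65.OH2.Num
import Pool.Agent.Helper54.OH.MLS
import Pool.Agent.Helper90.OH.OKS
import Pool.Agent.Helper28.Few.Sim

/-!
# The machines on numbers with free steps form a family computed in linear space
-/

set_option exponentiation.threshold 50000

namespace Pool.Agent.Helper65.OH

open Pool.Agent.Helper65.LinSpace Pool.Agent.Helper78.Mpc Pool.Agent.Helper28.Ram Finset Filter
open Pool.Agent.Helper81.Tok2 (gH CH)
open Pool.Agent.Helper28.Few (gH_pos gH_le LS_gH)
open Pool.Agent.Helper54.OH (PF LS_CR two_pow_le_CR gR_sq_le gR_pos)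

variable {α : Type} [Ctx α]

theorem hY_mul_le (n S D h : ℕ) : (S + (hY n S D h + kap n) * D + 2) * hY n S D h ≤
    gH n (hY n S D h) := by
  unfold hY
  by_cases h1 : (S + (h + kap n) * D + 2) * h ≤ gH n h
  · rw [le01, if_pos h1, ifz_ne one_ne_zero]
    exact h1
  · rw [le01, if_neg h1, ifz_zero]
    simp

theorem hY_eq {n S D h : ℕ} (h1 : (S + (h + kap n) * D + 2) * h ≤ gH n h) : hY n S D h = h := by
  unfold hY
  rw [le01, if_pos h1, ifz_ne one_ne_zero]

theorem gY_pos (n S D h : ℕ) : 0 < gY n S D h := gH_pos _ _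

theorem gY_le (n S D h : ℕ) : gY n S D h ≤ gR n := gH_le _ _

theorem gY_le' (n S D h : ℕ) : gY n S D h ≤ n + 1 :=
  (gY_le n S D h).trans (Pool.Agent.Helper69.Ram.gR_le n)

theorem hY_le (n S D h : ℕ) : hY n S D h ≤ n + 1 := by
  have h1 := hY_mul_le n S D h
  have h2 := gY_le' n S D h
  have h3 : hY n S D h ≤ (S + (hY n S D h + kap n) * D + 2) * hY n S D h :=
    Nat.le_mul_of_pos_left _ (by omega)
  unfold gY at h2
  omega

theorem κD_le (n S D h : ℕ) : (hY n S (dm n D) h + kap n) * dm n D ≤ 100 * (n + 1) := by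
  rcases Nat.eq_zero_or_pos (hY n S (dm n D) h) with h0 | h0
  · rw [h0, zero_add]
    have h1 := ll_sq_le n
    have h2 := ll_pos n
    have h3 : dm n D ≤ ll n := min_le_right _ _
    have h4 : kap n ≤ 10 * ll n := by
      unfold kap
      omega
    calc _ ≤ (10 * ll n) * ll n := Nat.mul_le_mul h4 h3
      _ = 10 * (ll n * ll n) := by ring
      _ ≤ _ := by omega
  · have h1 := hY_mul_le n S (dm n D) h
    have h2 := gY_le' n S (dm n D) h
    unfold gY at h2
    have h3 : (hY n S (dm n D) h + kap n) * dm n D ≤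
        (S + (hY n S (dm n D) h + kap n) * dm n D + 2) * hY n S (dm n D) h := by
      refine le_trans ?_ (Nat.le_mul_of_pos_right _ h0)
      omega
    omega

theorem sd2_spec (g S D : ℕ) (hS : S + 1 ≤ g) :
    0 < sd2 g S D ∧ (S + 1) * sd2 g S D ^ D ≤ g * g := by
  have hg : 1 ≤ g := by omega
  have hgg : g ≤ g * g := Nat.le_mul_of_pos_left _ hg
  rcases Nat.eq_zero_or_pos D with h0 | h0
  · subst h0
    constructor
    · unfold sd2
      apply sum_pos
      · intro j _
        unfold le01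
        rw [if_pos (by simp only [pow_zero]; omega)]
        norm_num
      · rw [nonempty_range_iff]
        positivity
    · rw [pow_zero]
      omega
  · obtain ⟨h1, h2, -⟩ := Pool.Agent.Helper90.OH.side_aux S D (g * g) h0 (by omega)
    exact ⟨h1, h2⟩

theorem sd2_le (g S D : ℕ) : sd2 g S D ≤ g * g := by
  unfold sd2
  refine (sum_le_sum (g := fun _ => 1) fun j _ => ?_).trans ?_
  · unfold le01
    split_ifs <;> norm_num
  · simp

theorem LS_sd2 {g S D : α → ℕ} (hg : LS g) (hS : LS S) (hD : LS D) :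
    LS (fun z => sd2 (g z) (S z) (D z)) := by
  have h1 : LS (fun p : α × ℕ => le01 ((S p.1 + 1) * capPow (p.2 + 1) (D p.1)
      (g p.1 * g p.1)) (g p.1 * g p.1)) := by
    fun_prop
  refine LS.congr (LS.sum_le (N := fun z => g z * g z) (B := fun _ => 1)
    (f := fun z j => le01 ((S z + 1) * capPow (j + 1) (D z)
      (g z * g z)) (g z * g z)) h1 (LS.mul hg hg) (LS.const 1) ?_) ?_
  · intro z i _
    unfold le01
    split_ifs <;> omega
  · intro z
    unfold sd2
    apply sum_congr rfl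
    intro j _
    unfold capPow
    rcases le_total ((j + 1) ^ D z) (g z * g z + 1) with h2 | h2
    · rw [min_eq_left h2]
    · rw [min_eq_right h2]
      unfold le01
      rw [if_neg, if_neg]
      · nlinarith
      · nlinarith

theorem LS_hY {n S D h : α → ℕ} (hn : LS n) (hS : LS S) (hD : LS D) (hh : LS h) :
    LS (fun z => hY (n z) (S z) (D z) (h z)) := by
  unfold hY
  refine LS.ifz (LS.le01 ?_ (LS_gH hn hh)) (LS.const 0) hh
  unfold kap
  fun_prop

/-- The parameters form a family in the class. -/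
theorem pf2 {eA eN eW st x y S D h o : α → ℕ} (heA : LS eA) (heN : LS eN) (heW : LS eW)
    (hst : LS st) (hx : LS x) (hy : LS y) (hS : LS S) (hD : LS D) (hh : LS h) (ho : LS o) :
    PF (fun z => prm2 (eA z) (eN z) (eW z) (st z) (x z) (y z) (S z) (D z) (h z) (o z))
      (fun z => CR (x z)) ∧
    LS (fun z => hY (Nat.log 2 (x z)) (S z) (dm (Nat.log 2 (x z)) (D z)) (h z)) ∧
    LS (fun z => gY (Nat.log 2 (x z)) (S z) (dm (Nat.log 2 (x z)) (D z)) (h z)) := by
  have hn : LS (fun z => Nat.log 2 (x z)) := LS.log2 hx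
  have hκ0 : LS (fun z => kap (Nat.log 2 (x z))) := by
    unfold kap
    fun_prop
  have hD' : LS (fun z => dm (Nat.log 2 (x z)) (D z)) := LS.min hD (LS.ll hn)
  have hH : LS (fun z => hY (Nat.log 2 (x z)) (S z) (dm (Nat.log 2 (x z)) (D z)) (h z)) :=
    LS_hY hn hS hD' hh
  have hg : LS (fun z => gY (Nat.log 2 (x z)) (S z) (dm (Nat.log 2 (x z)) (D z)) (h z)) :=
    LS_gH hn hH
  have hS' : LS (fun z => min (S z) (gY (Nat.log 2 (x z)) (S z) (dm (Nat.log 2 (x z)) (D z)) (h z)
    - 1)) := LS.min hS (LS.sub hg (LS.const 1))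
  have hκ : LS (fun z => hY (Nat.log 2 (x z)) (S z) (dm (Nat.log 2 (x z)) (D z)) (h z) +
    kap (Nat.log 2 (x z))) := LS.add hH hκ0
  have hC : LS (fun z => CR (x z)) := LS_CR hx
  have hd : LS (fun z => sd2 (gY (Nat.log 2 (x z)) (S z) (dm (Nat.log 2 (x z)) (D z)) (h z))
      (min (S z) (gY (Nat.log 2 (x z)) (S z) (dm (Nat.log 2 (x z)) (D z)) (h z) - 1))
      (dm (Nat.log 2 (x z)) (D z))) := LS_sd2 hg hS' hD'
  have hβ : LS (fun z => 2 ^ (2 * ll (Nat.log 2 (x z)))) :=
    LS.pow_of_le (f := fun _ => 2) (LS.const 2) (LS.mul (LS.const 2) (LS.ll hn)) hC fun z => by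
      apply two_pow_le_CR
      have h1 := ll_le (Nat.log 2 (x z))
      omega
  have hTc : LS (fun z => 2 ^ hY (Nat.log 2 (x z)) (S z) (dm (Nat.log 2 (x z)) (D z)) (h z)) :=
    LS.pow_of_le (f := fun _ => 2) (LS.const 2) hH hC fun z => by
      apply two_pow_le_CR
      have h1 := hY_le (Nat.log 2 (x z)) (S z) (dm (Nat.log 2 (x z)) (D z)) (h z)
      omega
  have hgg : ∀ z, 2 ^ (gY (Nat.log 2 (x z)) (S z) (dm (Nat.log 2 (x z)) (D z)) (h z) *
      gY (Nat.log 2 (x z)) (S z) (dm (Nat.log 2 (x z)) (D z)) (h z)) ≤ CR (x z) := fun z => by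
    apply two_pow_le_CR
    have h1 := gY_le (Nat.log 2 (x z)) (S z) (dm (Nat.log 2 (x z)) (D z)) (h z)
    have h2 := gR_sq_le (Nat.log 2 (x z))
    have h3 := Nat.mul_le_mul h1 h1
    omega
  have hSg : ∀ z, min (S z) (gY (Nat.log 2 (x z)) (S z) (dm (Nat.log 2 (x z)) (D z)) (h z)
    - 1) + 1 ≤ gY (Nat.log 2 (x z)) (S z) (dm (Nat.log 2 (x z)) (D z)) (h z) := fun z => by
    have h1 := gY_pos (Nat.log 2 (x z)) (S z) (dm (Nat.log 2 (x z)) (D z)) (h z)
    have h2 : min (S z) (gY (Nat.log 2 (x z)) (S z) (dm (Nat.log 2 (x z)) (D z)) (h z) - 1) ≤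
      gY (Nat.log 2 (x z)) (S z) (dm (Nat.log 2 (x z)) (D z)) (h z) - 1 := min_le_right _ _
    omega
  have hsd := fun z => sd2_spec _ _ (dm (Nat.log 2 (x z)) (D z)) (hSg z)
  have hgle : ∀ z, gY (Nat.log 2 (x z)) (S z) (dm (Nat.log 2 (x z)) (D z)) (h z) ≤
      gY (Nat.log 2 (x z)) (S z) (dm (Nat.log 2 (x z)) (D z)) (h z) *
      gY (Nat.log 2 (x z)) (S z) (dm (Nat.log 2 (x z)) (D z)) (h z) := fun z =>
    Nat.le_mul_of_pos_left _ (gY_pos _ _ _ _)
  refine ⟨?_, hH, hg⟩
  exact
    { eA := heA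
      eN := heN
      eW := heW
      st := hst
      hΛ := LS.LW hn
      hβ := hβ
      hB := hC
      x := hx
      y := hy
      S := hS'
      κ := hκ
      D := hD'
      d := hd
      o := LS.mod ho hd
      Tc := LS.mul hTc ((LS.add hn (LS.const 2)).pow_const 4)
      σ := LS.add (LS.min (LS.add hS' (LS.mul hκ hD')) (LS.sub hg (LS.const 1))) (LS.const 1)
      a := LS.mul hg hg
      hC := hC
      b1 := fun z => by
        show 0 < 2 ^ (2 * ll (Nat.log 2 (x z)))
        positivity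
      b2 := fun z => by
        refine (beta_pow_le (x z)).trans ?_
        unfold CM CR
        exact Nat.pow_le_pow_right (by omega) (by norm_num)
      b3 := fun z => le_trans (Nat.pow_le_pow_right (by norm_num) ((hSg z).trans (hgle z)))
        (hgg z)
      b4 := fun z => by
        apply two_pow_le_CR
        show hY (Nat.log 2 (x z)) (S z) (dm (Nat.log 2 (x z)) (D z)) (h z) +
          kap (Nat.log 2 (x z)) ≤ _
        have h1 := ll_le (Nat.log 2 (x z))
        have h2 := hY_le (Nat.log 2 (x z)) (S z) (dm (Nat.log 2 (x z)) (D z)) (h z)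
        unfold kap
        omega
      b5 := fun z => by
        rw [← pow_mul]
        exact two_pow_le_CR (κD_le _ _ _ _)
      b6 := fun z => (hsd z).1
      b7 := fun z => by
        have h1 := (hsd z).2
        have h2 := (Nat.le_mul_of_pos_left _ (Nat.succ_pos _)).trans h1
        exact (h2.trans Nat.lt_two_pow_self.le).trans (hgg z)
      b8 := fun z => by
        rw [← pow_mul]
        exact le_trans (Nat.pow_le_pow_right (by norm_num) (hsd z).2) (hgg z)
      b9 := fun z => by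
        refine le_trans (Nat.pow_le_pow_right (by norm_num) ?_) (hgg z)
        refine le_trans ?_ (hgle z)
        show min (min (S z) (gY (Nat.log 2 (x z)) (S z) (dm (Nat.log 2 (x z)) (D z)) (h z) - 1) +
          (hY (Nat.log 2 (x z)) (S z) (dm (Nat.log 2 (x z)) (D z)) (h z) +
            kap (Nat.log 2 (x z))) * dm (Nat.log 2 (x z)) (D z))
          (gY (Nat.log 2 (x z)) (S z) (dm (Nat.log 2 (x z)) (D z)) (h z) - 1) + 1 ≤ _
        have h1 := gY_pos (Nat.log 2 (x z)) (S z) (dm (Nat.log 2 (x z)) (D z)) (h z)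
        have h2 : min (min (S z) (gY (Nat.log 2 (x z)) (S z) (dm (Nat.log 2 (x z)) (D z)) (h z)
            - 1) + (hY (Nat.log 2 (x z)) (S z) (dm (Nat.log 2 (x z)) (D z)) (h z) +
            kap (Nat.log 2 (x z))) * dm (Nat.log 2 (x z)) (D z))
          (gY (Nat.log 2 (x z)) (S z) (dm (Nat.log 2 (x z)) (D z)) (h z) - 1) ≤
          gY (Nat.log 2 (x z)) (S z) (dm (Nat.log 2 (x z)) (D z)) (h z) - 1 := min_le_right _ _
        omega
      b10 := hgg }

end Pool.Agent.Helper65.OH
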