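import Pool.Agent.Helper65.OH2.Goals
import Pool.Agent.Helper65.OH2.MLS
import Pool.Agent.Helper65.OH.Main

/-!
# Machines with one head and free steps are weaker than linear space
-/

set_option exponentiation.threshold 50000

namespace Pool.Agent.Helper65.OH

open Pool.Agent.Helper65.LinSpace Pool.Agent.Helper78.Mpc Pool.Agent.Helper28.Ram Finset Filter
open Pool.Agent.Helper81.Tok2 (gH CH)
open Pool.Agent.Helper28.Few (gH_pos gH_le LS_gH mcf Sim)

variable {α : Type} [Ctx α]

theorem conf_tok2 (m : Prm) (h g T : ℕ) :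
    (m.tok2 h g).conf T = mcf m.fA m.fN m.fW h m.q0 (fun _ => m.M0) T :=
  Pool.Agent.Helper28.Few.conf_eq _ _

/-- The parts of the proof. -/
structure Parts2 : Prop where
  CROSS2 : CROSS2_stmt
  MCOR2 : MCOR2_stmt
  PAR2 : PAR2_stmt
  PAR5 : PAR5_stmt

section

variable (eA eN eW st x y S D h o : ℕ)

/-- The token machine of the parameters `prm2`. -/
def tokX : Pool.Agent.Helper81.Tok2.Mach :=
  (prm2 eA eN eW st x y S D h o).tok2 (hY (Nat.log 2 x) S (dm (Nat.log 2 x) D) h)
    (gY (Nat.log 2 x) S (dm (Nat.log 2 x) D) h)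

theorem par_tokX : Pool.Agent.Helper81.Tok2.Par (Nat.log 2 x)
    (tokX eA eN eW st x y S D h o) := by
  have hg := gY_pos (Nat.log 2 x) S (dm (Nat.log 2 x) D) h
  have h1 := hY_mul_le (Nat.log 2 x) S (dm (Nat.log 2 x) D) h
  refine ⟨?_, ?_, rfl, rfl, le_rfl⟩
  · show min (min S (gY (Nat.log 2 x) S (dm (Nat.log 2 x) D) h - 1) +
      (hY (Nat.log 2 x) S (dm (Nat.log 2 x) D) h + kap (Nat.log 2 x)) * dm (Nat.log 2 x) D)
      (gY (Nat.log 2 x) S (dm (Nat.log 2 x) D) h - 1) + 1 ≤
        gY (Nat.log 2 x) S (dm (Nat.log 2 x) D) h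
    omega
  · show (min (min S (gY (Nat.log 2 x) S (dm (Nat.log 2 x) D) h - 1) +
      (hY (Nat.log 2 x) S (dm (Nat.log 2 x) D) h + kap (Nat.log 2 x)) * dm (Nat.log 2 x) D)
      (gY (Nat.log 2 x) S (dm (Nat.log 2 x) D) h - 1) + 1 + 1) *
        hY (Nat.log 2 x) S (dm (Nat.log 2 x) D) h ≤
        gH (Nat.log 2 x) (hY (Nat.log 2 x) S (dm (Nat.log 2 x) D) h)
    refine le_trans (Nat.mul_le_mul_right _ ?_) h1
    have h2 : min (min S (gY (Nat.log 2 x) S (dm (Nat.log 2 x) D) h - 1) +
      (hY (Nat.log 2 x) S (dm (Nat.log 2 x) D) h + kap (Nat.log 2 x)) * dm (Nat.log 2 x) D)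
      (gY (Nat.log 2 x) S (dm (Nat.log 2 x) D) h - 1) ≤
      min S (gY (Nat.log 2 x) S (dm (Nat.log 2 x) D) h - 1) +
      (hY (Nat.log 2 x) S (dm (Nat.log 2 x) D) h + kap (Nat.log 2 x)) * dm (Nat.log 2 x) D :=
        min_le_left _ _
    have h3 : min S (gY (Nat.log 2 x) S (dm (Nat.log 2 x) D) h - 1) ≤ S := min_le_left _ _
    omega

theorem ok_tokX : (tokX eA eN eW st x y S D h o).Ok := by
  have H := Pool.Agent.Helper90.OH.OKS.1 (prm2 eA eN eW st x y S D h o)
  refine ⟨Nat.succ_pos _, ?_, fun q => (H q 0).1, fun q v => (H q v).2.1,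
    fun q v => (H q v).2.2.1, (H 0 0).2.2.2.1, fun _ => (H 0 0).2.2.2.2⟩
  have h1 := (par_tokX eA eN eW st x y S D h o).hσ
  exact Nat.div_pos h1 (Nat.succ_pos _)

theorem sv_tokX : (tokX eA eN eW st x y S D h o).sv ≤ CH x := by
  have h1 := (par_tokX eA eN eW st x y S D h o).hh
  refine le_trans ?_ (Pool.Agent.Helper28.Few.CR_le_CH x)
  unfold Pool.Agent.Helper81.Tok2.Mach.sv
  rw [← pow_mul]
  refine Pool.Agent.Helper28.Long.pow_le_CR (h1.trans ?_)
  have h2 := gH_le (Nat.log 2 x) (tokX eA eN eW st x y S D h o).h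
  have h3 := Pool.Agent.Helper69.Ram.gR_le (Nat.log 2 x)
  omega

end

/-- The token machines of the simulation form a family computed in linear space. -/
theorem lsm_tokX (P : Sim) {eA eN eW st x y S D h o : α → ℕ} (heA : LS eA) (heN : LS eN)
    (heW : LS eW) (hst : LS st) (hx : LS x) (hy : LS y) (hS : LS S) (hD : LS D) (hh : LS h)
    (ho : LS o) :
    Pool.Agent.Helper81.Tok2.LSM (fun z =>
      tokX (eA z) (eN z) (eW z) (st z) (x z) (y z) (S z) (D z) (h z) (o z))
      (fun z => CH (x z)) := by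
  obtain ⟨hP, hH, hg⟩ := pf2 heA heN heW hst hx hy hS hD hh ho
  have hP1 := hP.comp (π := fun p : α × ℕ => p.1) LS.fst
  have hP2 := hP.comp (π := fun p : α × ℕ × ℕ => p.1) LS.fst
  have hq2 : LS (fun p : α × ℕ × ℕ => p.2.1) := by fun_prop
  have hv2 : LS (fun p : α × ℕ × ℕ => p.2.2) := by fun_prop
  refine ⟨hP.σ, hP.a, LS.div hg hP.σ, hg, hH, hP1.fA LS.snd, hP2.fN hq2 hv2, hP2.fW hq2 hv2,
    hP.q0, ?_, ?_, fun z => ok_tokX _ _ _ _ _ _ _ _ _ _, fun z =>
    P.nv _ _ (ok_tokX _ _ _ _ _ _ _ _ _ _) (par_tokX _ _ _ _ _ _ _ _ _ _),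
    fun z => sv_tokX _ _ _ _ _ _ _ _ _ _⟩
  · exact LS.comp (f := fun z : α × ℕ => z.1) hP.M0 (by fun_prop)
  · unfold CH
    exact (LS.add hx (LS.const 2)).pow_const 40000

/-- The simulation: `1` if the machine with the code `e` accepts, with the length of the words, the
shift and the number `h` coded by `T`. -/
noncomputable def acc2 (P : Sim) (e x y T : ℕ) : ℕ :=
  eq01 ((prm2 (Nat.unpair (Nat.unpair e).2).1
      (Nat.unpair (Nat.unpair (Nat.unpair e).2).2).1
      (Nat.unpair (Nat.unpair (Nat.unpair (Nat.unpair e).2).2).2).1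
      (Nat.unpair (Nat.unpair (Nat.unpair (Nat.unpair e).2).2).2).2 x y
      (T / (Nat.log 2 x + 2) / (gR (Nat.log 2 x) * gR (Nat.log 2 x))) (Nat.unpair e).1
      (T % (Nat.log 2 x + 2))
      (T / (Nat.log 2 x + 2) % (gR (Nat.log 2 x) * gR (Nat.log 2 x)))).σ)
    ((prm2 (Nat.unpair (Nat.unpair e).2).1
      (Nat.unpair (Nat.unpair (Nat.unpair e).2).2).1
      (Nat.unpair (Nat.unpair (Nat.unpair (Nat.unpair e).2).2).2).1
      (Nat.unpair (Nat.unpair (Nat.unpair (Nat.unpair e).2).2).2).2 x y
      (T / (Nat.log 2 x + 2) / (gR (Nat.log 2 x) * gR (Nat.log 2 x))) (Nat.unpair e).1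
      (T % (Nat.log 2 x + 2))
      (T / (Nat.log 2 x + 2) % (gR (Nat.log 2 x) * gR (Nat.log 2 x)))).S + 1 +
     (prm2 (Nat.unpair (Nat.unpair e).2).1
      (Nat.unpair (Nat.unpair (Nat.unpair e).2).2).1
      (Nat.unpair (Nat.unpair (Nat.unpair (Nat.unpair e).2).2).2).1
      (Nat.unpair (Nat.unpair (Nat.unpair (Nat.unpair e).2).2).2).2 x y
      (T / (Nat.log 2 x + 2) / (gR (Nat.log 2 x) * gR (Nat.log 2 x))) (Nat.unpair e).1
      (T % (Nat.log 2 x + 2))
      (T / (Nat.log 2 x + 2) % (gR (Nat.log 2 x) * gR (Nat.log 2 x)))).κ *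
     (prm2 (Nat.unpair (Nat.unpair e).2).1
      (Nat.unpair (Nat.unpair (Nat.unpair e).2).2).1
      (Nat.unpair (Nat.unpair (Nat.unpair (Nat.unpair e).2).2).2).1
      (Nat.unpair (Nat.unpair (Nat.unpair (Nat.unpair e).2).2).2).2 x y
      (T / (Nat.log 2 x + 2) / (gR (Nat.log 2 x) * gR (Nat.log 2 x))) (Nat.unpair e).1
      (T % (Nat.log 2 x + 2))
      (T / (Nat.log 2 x + 2) % (gR (Nat.log 2 x) * gR (Nat.log 2 x)))).D) *
  accN ((prm2 (Nat.unpair (Nat.unpair e).2).1
      (Nat.unpair (Nat.unpair (Nat.unpair e).2).2).1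
      (Nat.unpair (Nat.unpair (Nat.unpair (Nat.unpair e).2).2).2).1
      (Nat.unpair (Nat.unpair (Nat.unpair (Nat.unpair e).2).2).2).2 x y
      (T / (Nat.log 2 x + 2) / (gR (Nat.log 2 x) * gR (Nat.log 2 x))) (Nat.unpair e).1
      (T % (Nat.log 2 x + 2))
      (T / (Nat.log 2 x + 2) % (gR (Nat.log 2 x) * gR (Nat.log 2 x)))).wq
    (P.sim (Nat.log 2 x) (tokX (Nat.unpair (Nat.unpair e).2).1
      (Nat.unpair (Nat.unpair (Nat.unpair e).2).2).1
      (Nat.unpair (Nat.unpair (Nat.unpair (Nat.unpair e).2).2).2).1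
      (Nat.unpair (Nat.unpair (Nat.unpair (Nat.unpair e).2).2).2).2 x y
      (T / (Nat.log 2 x + 2) / (gR (Nat.log 2 x) * gR (Nat.log 2 x))) (Nat.unpair e).1
      (T % (Nat.log 2 x + 2))
      (T / (Nat.log 2 x + 2) % (gR (Nat.log 2 x) * gR (Nat.log 2 x))))))

/-- The number of codes of parameters. -/
def NT2 (x : ℕ) : ℕ :=
  gR (Nat.log 2 x) * (gR (Nat.log 2 x) * gR (Nat.log 2 x)) * (Nat.log 2 x + 2)

theorem LS.NT2 : LS OH.NT2 := by
  unfold OH.NT2
  have hn : LS (fun x => Nat.log 2 x) := by fun_prop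
  have h : LS (fun x => gR (Nat.log 2 x)) := Pool.Agent.Helper54.OH.LS_gR hn
  exact LS.mul (LS.mul h (LS.mul h h)) (LS.add hn (LS.const 2))

theorem LS.acc2 (P : Sim) :
    LS (fun z : ℕ × ℕ × ℕ × ℕ => acc2 P z.1 z.2.1 z.2.2.1 z.2.2.2) := by
  have hx : LS (fun z : ℕ × ℕ × ℕ × ℕ => z.2.1) := by fun_prop
  have hy : LS (fun z : ℕ × ℕ × ℕ × ℕ => z.2.2.1) := by fun_prop
  have hn : LS (fun z : ℕ × ℕ × ℕ × ℕ => Nat.log 2 z.2.1) := by fun_prop
  have hn2 : LS (fun z : ℕ × ℕ × ℕ × ℕ => Nat.log 2 z.2.1 + 2) := by fun_prop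
  have hg : LS (fun z : ℕ × ℕ × ℕ × ℕ => gR (Nat.log 2 z.2.1)) :=
    Pool.Agent.Helper54.OH.LS_gR hn
  have hgg := LS.mul hg hg
  have hT : LS (fun z : ℕ × ℕ × ℕ × ℕ => z.2.2.2) := by fun_prop
  have hT1 := LS.div hT hn2
  have hS := LS.div hT1 hgg
  have ho := LS.mod hT1 hgg
  have hh := LS.mod hT hn2
  have h0 : LS (fun z : ℕ × ℕ × ℕ × ℕ => (Nat.unpair z.1).1) := by fun_prop
  have h1 : LS (fun z : ℕ × ℕ × ℕ × ℕ => (Nat.unpair (Nat.unpair z.1).2).1) := by fun_prop
  have h2 : LS (fun z : ℕ × ℕ × ℕ × ℕ =>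
      (Nat.unpair (Nat.unpair (Nat.unpair z.1).2).2).1) := by fun_prop
  have h3 : LS (fun z : ℕ × ℕ × ℕ × ℕ =>
      (Nat.unpair (Nat.unpair (Nat.unpair (Nat.unpair z.1).2).2).2).1) := by fun_prop
  have h4 : LS (fun z : ℕ × ℕ × ℕ × ℕ =>
      (Nat.unpair (Nat.unpair (Nat.unpair (Nat.unpair z.1).2).2).2).2) := by fun_prop
  obtain ⟨hP, -, -⟩ := pf2 h1 h2 h3 h4 hx hy hS h0 hh ho
  have hsim := P.ls hx (lsm_tokX P h1 h2 h3 h4 hx hy hS h0 hh ho) fun z =>
    par_tokX _ _ _ _ _ _ _ _ _ _
  unfold OH.acc2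
  refine LS.mul (LS.eq01 hP.σ (LS.add (LS.add hP.S (LS.const 1)) (LS.mul hP.κ hP.D))) ?_
  exact Pool.Agent.Helper54.OH.LS_accN (hP.wq hsim)

/-! ### The parameters are right for long words -/

/-- The parameters of the theorem are those of `Par`. -/
theorem par_prm2 {D : ℕ} (A : OneHead D) (hD : 0 < D) {eA eN eW c : ℕ}
    {w y : List Bool} {S h o : ℕ} (hl : D ≤ ll w.length)
    (h5 : ∀ S < gR w.length, c * (4 * S + 8) ≤ LW w.length ∧
      c + LW w.length + 4 * S + 8 ≤ 2 ^ (2 * ll w.length) ∧
      ∀ x, Nat.log 2 x = w.length → 2 ^ (S + 1) ≤ CR x)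
    (hσ : (prm2 eA eN eW (num A.start) (num w) (num y) S D h o).σ =
      (prm2 eA eN eW (num A.start) (num w) (num y) S D h o).sg) :
    Par A eA eN eW c w y (prm2 eA eN eW (num A.start) (num w) (num y) S D h o) ∧
      (prm2 eA eN eW (num A.start) (num w) (num y) S D h o).o <
        (prm2 eA eN eW (num A.start) (num w) (num y) S D h o).d := by
  have hlog : Nat.log 2 (num w) = w.length := Pool.Agent.Helper65.LinSpace.log_num w
  have e2 : dm w.length D = D := min_eq_left hl
  have hgp := gY_pos w.length S D h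
  have hgle := gY_le w.length S D h
  have hS1 : min S (gY w.length S D h - 1) + 1 ≤ gY w.length S D h := by omega
  obtain ⟨h1, h2⟩ := sd2_spec (gY w.length S D h) (min S (gY w.length S D h - 1)) D hS1
  obtain ⟨h6, h7, h8⟩ := h5 (min S (gY w.length S D h - 1)) (by omega)
  have hS' : (prm2 eA eN eW (num A.start) (num w) (num y) S D h o).S =
      min S (gY w.length S D h - 1) := by
    show min S (gY (Nat.log 2 (num w)) S (dm (Nat.log 2 (num w)) D) h - 1) = _
    rw [hlog, e2]
  have hd : (prm2 eA eN eW (num A.start) (num w) (num y) S D h o).d =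
      sd2 (gY w.length S D h) (min S (gY w.length S D h - 1)) D := by
    show sd2 (gY (Nat.log 2 (num w)) S (dm (Nat.log 2 (num w)) D) h)
      (min S (gY (Nat.log 2 (num w)) S (dm (Nat.log 2 (num w)) D) h - 1))
      (dm (Nat.log 2 (num w)) D) = _
    rw [hlog, e2]
  have ha : (prm2 eA eN eW (num A.start) (num w) (num y) S D h o).a =
      gY w.length S D h * gY w.length S D h := by
    show gY (Nat.log 2 (num w)) S (dm (Nat.log 2 (num w)) D) h *
      gY (Nat.log 2 (num w)) S (dm (Nat.log 2 (num w)) D) h = _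
    rw [hlog, e2]
  have hpos : 0 < (prm2 eA eN eW (num A.start) (num w) (num y) S D h o).d := by
    rw [hd]
    exact h1
  refine ⟨⟨rfl, rfl, rfl, rfl, rfl, rfl, ?_, hD, ?_, hpos, hσ, ?_, ?_, ?_, ?_⟩, ?_⟩
  · show dm (Nat.log 2 (num w)) D = D
    rw [hlog, e2]
  · show 0 < _ + (4 * ll _ + 6)
    omega
  · rw [hd, hS', ha]
    exact h2
  · show c * (4 * (prm2 eA eN eW (num A.start) (num w) (num y) S D h o).S + 8) ≤
      LW (Nat.log 2 (num w))
    rw [hS', hlog]
    exact h6
  · show c + LW (Nat.log 2 (num w)) +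
      4 * (prm2 eA eN eW (num A.start) (num w) (num y) S D h o).S + 8 ≤
      2 ^ (2 * ll (Nat.log 2 (num w)))
    rw [hS', hlog]
    exact h7
  · show 2 ^ ((prm2 eA eN eW (num A.start) (num w) (num y) S D h o).S + 1) ≤ CR (num w)
    rw [hS']
    exact h8 _ hlog
  · exact Nat.mod_lt _ hpos

/-- Every machine has a code. -/
theorem exists_good2 (P : Sim) (H : Parts2) {D : ℕ} (hD : 0 < D)
    (A : OneHead D) (C : ℝ) : ∃ e n₀ : ℕ, ∀ w y : List Bool, n₀ ≤ w.length →
    (∀ T < NT2 (num w), acc2 P e (num w) (num y) T ≠ 0 → ∃ r, A.AcceptsAt w y r) ∧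
    (A.Within C w y → ∃ T < NT2 (num w), acc2 P e (num w) (num y) T ≠ 0) := by
  classical
  obtain ⟨eA, eN, eW, c, hA⟩ := H.MCOR2 A
  obtain ⟨n₀, hn₀⟩ := eventually_atTop.1 (H.PAR5.1 c D)
  obtain ⟨n₁, hn₁⟩ := eventually_atTop.1 (H.PAR2 D C hD)
  refine ⟨Nat.pair D (Nat.pair eA (Nat.pair eN (Nat.pair eW (num A.start)))), n₀ + n₁,
    fun w y hw => ?_⟩
  have hlog : Nat.log 2 (num w) = w.length := Pool.Agent.Helper65.LinSpace.log_num w
  obtain ⟨hl, h5⟩ := hn₀ w.length (by omega)
  have hg : 0 < gR w.length := Pool.Agent.Helper54.OH.gR_pos _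
  have e2 : dm w.length D = D := min_eq_left hl
  have hNT : NT2 (num w) = gR w.length * (gR w.length * gR w.length) * (w.length + 2) := by
    unfold NT2
    rw [hlog]
  -- the value of the simulation
  have key : ∀ S h o : ℕ, P.sim w.length (tokX eA eN eW (num A.start) (num w) (num y) S D h o) =
      (mcf (prm2 eA eN eW (num A.start) (num w) (num y) S D h o).fA
        (prm2 eA eN eW (num A.start) (num w) (num y) S D h o).fN
        (prm2 eA eN eW (num A.start) (num w) (num y) S D h o).fW (hY w.length S D h)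
        (prm2 eA eN eW (num A.start) (num w) (num y) S D h o).q0
        (fun _ => (prm2 eA eN eW (num A.start) (num w) (num y) S D h o).M0)
        (gY w.length S D h * (gY w.length S D h * (gY w.length S D h /
          (prm2 eA eN eW (num A.start) (num w) (num y) S D h o).σ)))).1 := by
    intro S h o
    have h1 := P.eq (tokX eA eN eW (num A.start) (num w) (num y) S D h o) w.length
      (ok_tokX eA eN eW (num A.start) (num w) (num y) S D h o)
      (by
        have := par_tokX eA eN eW (num A.start) (num w) (num y) S D h o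
        rwa [hlog] at this)
    rw [h1]
    unfold tokX
    rw [conf_tok2, hlog, e2]
    rfl
  have hacc : ∀ T, acc2 P (Nat.pair D (Nat.pair eA (Nat.pair eN (Nat.pair eW (num A.start)))))
      (num w) (num y) T = eq01
        (prm2 eA eN eW (num A.start) (num w) (num y)
          (T / (w.length + 2) / (gR w.length * gR w.length)) D (T % (w.length + 2))
          (T / (w.length + 2) % (gR w.length * gR w.length))).σ
        (prm2 eA eN eW (num A.start) (num w) (num y)
          (T / (w.length + 2) / (gR w.length * gR w.length)) D (T % (w.length + 2))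
          (T / (w.length + 2) % (gR w.length * gR w.length))).sg *
      accN ((prm2 eA eN eW (num A.start) (num w) (num y)
          (T / (w.length + 2) / (gR w.length * gR w.length)) D (T % (w.length + 2))
          (T / (w.length + 2) % (gR w.length * gR w.length))).wq
        (P.sim w.length (tokX eA eN eW (num A.start) (num w) (num y)
          (T / (w.length + 2) / (gR w.length * gR w.length)) D (T % (w.length + 2))
          (T / (w.length + 2) % (gR w.length * gR w.length))))) := by
    intro T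
    unfold acc2 Prm.sg
    simp only [Nat.unpair_pair, hlog]
  have hle : ∀ v, accN v = 0 ∨ accN v = 1 := by
    intro v
    unfold accN lt01
    rcases Nat.mod_two_eq_zero_or_one v with h | h <;> rw [h] <;> split_ifs <;> simp
  constructor
  · intro T hT hne
    rw [hNT] at hT
    have hS : T / (w.length + 2) / (gR w.length * gR w.length) < gR w.length := by
      rw [Nat.div_lt_iff_lt_mul (Nat.mul_pos hg hg), Nat.div_lt_iff_lt_mul (by omega)]
      exact hT
    rw [hacc] at hne
    generalize T / (w.length + 2) / (gR w.length * gR w.length) = S at *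
    generalize T / (w.length + 2) % (gR w.length * gR w.length) = o at *
    generalize T % (w.length + 2) = h at *
    have hσ : (prm2 eA eN eW (num A.start) (num w) (num y) S D h o).σ =
        (prm2 eA eN eW (num A.start) (num w) (num y) S D h o).sg := by
      by_contra h
      apply hne
      rw [eq01, if_neg h, zero_mul]
    obtain ⟨hP, ho⟩ := par_prm2 A hD (eA := eA) (eN := eN) (eW := eW) (c := c) (w := w) (y := y)
      (h := h) (o := o) hl h5 hσ
    rw [key] at hne
    refine (hA w y _ hP ho (hY w.length S D h)).1 (gY w.length S D h * (gY w.length S D h *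
      (gY w.length S D h / (prm2 eA eN eW (num A.start) (num w) (num y) S D h o).σ))) ?_
    rcases hle ((prm2 eA eN eW (num A.start) (num w) (num y) S D h o).wq
      (mcf (prm2 eA eN eW (num A.start) (num w) (num y) S D h o).fA
        (prm2 eA eN eW (num A.start) (num w) (num y) S D h o).fN
        (prm2 eA eN eW (num A.start) (num w) (num y) S D h o).fW (hY w.length S D h)
        (prm2 eA eN eW (num A.start) (num w) (num y) S D h o).q0
        (fun _ => (prm2 eA eN eW (num A.start) (num w) (num y) S D h o).M0)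
        (gY w.length S D h * (gY w.length S D h * (gY w.length S D h /
          (prm2 eA eN eW (num A.start) (num w) (num y) S D h o).σ)))).1) with h' | h'
    · exact absurd (by rw [h', mul_zero]) hne
    · exact h'
  · rintro ⟨r, s, x, h, hx, hr, b1, b2, hfit, hacc'⟩
    obtain ⟨q1, q2, q3, q4⟩ := hn₁ w.length (by omega) x s h (one_le_of_accepts hfit hacc') b1 b2
    have eh : hY w.length s D h = h := hY_eq q1
    have eg : gY w.length s D h = gH w.length h := by
      unfold gY
      rw [eh]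
    have hgR : gH w.length h ≤ gR w.length := gH_le _ _
    have hgn := Pool.Agent.Helper69.Ram.gR_le w.length
    have hhn : h < w.length + 2 := by
      have : h ≤ (s + (h + kap w.length) * D + 2) * h := Nat.le_mul_of_pos_left _ (by omega)
      omega
    have hsg : s < gR w.length := by omega
    have e1 : min s (gH w.length h - 1) = s := min_eq_left (by omega)
    obtain ⟨hd1, hd2⟩ := sd2_spec (gH w.length h) s D (by omega)
    have hdg : sd2 (gH w.length h) s D ≤ gR w.length * gR w.length :=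
      (sd2_le _ _ _).trans (Nat.mul_le_mul hgR hgR)
    -- the shift
    obtain ⟨o, ho, hc⟩ := H.CROSS2 D r (sd2 (gH w.length h) s D) (2 ^ h) (A.New w y)
      (fun t k => co (h + kap w.length) (A.conf w y t).h k) hd1
      (fun t _ k _ => co_step A w y _ t k)
    have hwork : ((range r).filter (A.New w y)).card = A.work w y r := by
      unfold OneHead.work
      rw [← Set.ncard_coe_finset]
      congr 1
      ext t
      simp
    rw [hwork] at hc
    set Z := ((range r).filter fun t => A.New w y t ∧ ∃ k < D,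
      (co (h + kap w.length) (A.conf w y t).h k + o) / sd2 (gH w.length h) s D ≠
        (co (h + kap w.length) (A.conf w y (t + 1)).h k + o) / sd2 (gH w.length h) s D).card
      with hZ
    set R := ((range r).filter fun t => ∃ k < D,
      (co (h + kap w.length) (A.conf w y t).h k + o) / sd2 (gH w.length h) s D ≠
        (co (h + kap w.length) (A.conf w y (t + 1)).h k + o) / sd2 (gH w.length h) s D).card
      with hR
    have hdiv0 : ((s * (gR w.length * gR w.length) + o) * (w.length + 2) + h) /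
        (w.length + 2) = s * (gR w.length * gR w.length) + o := by
      rw [mul_comm, Nat.mul_add_div (by omega), Nat.div_eq_of_lt (by omega), add_zero]
    have hmod0 : ((s * (gR w.length * gR w.length) + o) * (w.length + 2) + h) %
        (w.length + 2) = h := by
      rw [mul_comm, Nat.mul_add_mod, Nat.mod_eq_of_lt (by omega)]
    have hdiv : (s * (gR w.length * gR w.length) + o) / (gR w.length * gR w.length) = s := by
      rw [mul_comm, Nat.mul_add_div (Nat.mul_pos hg hg), Nat.div_eq_of_lt (by omega), add_zero]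
    have hmod : (s * (gR w.length * gR w.length) + o) % (gR w.length * gR w.length) = o := by
      rw [mul_comm, Nat.mul_add_mod, Nat.mod_eq_of_lt (by omega)]
    refine ⟨(s * (gR w.length * gR w.length) + o) * (w.length + 2) + h, ?_, ?_⟩
    · rw [hNT]
      have h1 : s * (gR w.length * gR w.length) + o <
          gR w.length * (gR w.length * gR w.length) := by
        calc s * (gR w.length * gR w.length) + o < s * (gR w.length * gR w.length) +
              gR w.length * gR w.length := by omega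
          _ = (s + 1) * (gR w.length * gR w.length) := by ring
          _ ≤ _ := Nat.mul_le_mul_right _ hsg
      calc (s * (gR w.length * gR w.length) + o) * (w.length + 2) + h
          < (s * (gR w.length * gR w.length) + o) * (w.length + 2) + (w.length + 2) := by omega
        _ = (s * (gR w.length * gR w.length) + o + 1) * (w.length + 2) := by ring
        _ ≤ _ := Nat.mul_le_mul_right _ h1
    · rw [hacc, hdiv0, hmod0, hdiv, hmod, key, eh, eg]
      have e3 : (prm2 eA eN eW (num A.start) (num w) (num y) s D h o).σ =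
          s + (h + kap w.length) * D + 1 := by
        show min (min s (gY (Nat.log 2 (num w)) s (dm (Nat.log 2 (num w)) D) h - 1) +
          (hY (Nat.log 2 (num w)) s (dm (Nat.log 2 (num w)) D) h + kap (Nat.log 2 (num w))) *
            dm (Nat.log 2 (num w)) D)
          (gY (Nat.log 2 (num w)) s (dm (Nat.log 2 (num w)) D) h - 1) + 1 = _
        rw [hlog, e2, eg, eh, e1, min_eq_left (by omega)]
      have e4 : (prm2 eA eN eW (num A.start) (num w) (num y) s D h o).S = s := by
        show min s (gY (Nat.log 2 (num w)) s (dm (Nat.log 2 (num w)) D) h - 1) = _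
        rw [hlog, e2, eg, e1]
      have e5 : (prm2 eA eN eW (num A.start) (num w) (num y) s D h o).κ = h + kap w.length := by
        show hY (Nat.log 2 (num w)) s (dm (Nat.log 2 (num w)) D) h + kap (Nat.log 2 (num w)) = _
        rw [hlog, e2, eh]
      have e6 : (prm2 eA eN eW (num A.start) (num w) (num y) s D h o).d =
          sd2 (gH w.length h) s D := by
        show sd2 (gY (Nat.log 2 (num w)) s (dm (Nat.log 2 (num w)) D) h)
          (min s (gY (Nat.log 2 (num w)) s (dm (Nat.log 2 (num w)) D) h - 1))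
          (dm (Nat.log 2 (num w)) D) = _
        rw [hlog, e2, eg, e1]
      have e7 : (prm2 eA eN eW (num A.start) (num w) (num y) s D h o).o = o := by
        show o % sd2 (gY (Nat.log 2 (num w)) s (dm (Nat.log 2 (num w)) D) h)
          (min s (gY (Nat.log 2 (num w)) s (dm (Nat.log 2 (num w)) D) h - 1))
          (dm (Nat.log 2 (num w)) D) = _
        rw [hlog, e2, eg, e1, Nat.mod_eq_of_lt ho]
      have e8 : (prm2 eA eN eW (num A.start) (num w) (num y) s D h o).Tc =
          2 ^ h * (w.length + 2) ^ 4 := by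
        show 2 ^ hY (Nat.log 2 (num w)) s (dm (Nat.log 2 (num w)) D) h *
          (Nat.log 2 (num w) + 2) ^ 4 = _
        rw [hlog, e2, eh]
      have e9 : (prm2 eA eN eW (num A.start) (num w) (num y) s D h o).D = D := by
        show dm (Nat.log 2 (num w)) D = _
        rw [hlog, e2]
      have hσ : (prm2 eA eN eW (num A.start) (num w) (num y) s D h o).σ =
          (prm2 eA eN eW (num A.start) (num w) (num y) s D h o).sg := by
        rw [e3]
        unfold Prm.sg
        rw [e4, e5, e9]
        ring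
      obtain ⟨hP, ho'⟩ := par_prm2 A hD (eA := eA) (eN := eN) (eW := eW) (c := c) (w := w)
        (y := y) (h := h) (o := o) hl h5 hσ
      have hrT : r ≤ 2 ^ h * (w.length + 2) ^ 4 := hr.trans (Nat.mul_le_mul_left _ q3)
      have hRle : R / 2 ^ h * 2 ^ h ≤ R := Nat.div_mul_le_self _ _
      have hRlt : R + 1 ≤ 2 ^ h * (R / 2 ^ h + 1) := by
        have := Nat.lt_mul_div_succ R (show 0 < 2 ^ h by positivity)
        omega
      have hdz : sd2 (gH w.length h) s D * (Z + R / 2 ^ h) ≤ D * (2 * x + 1) := by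
        have h1 : (sd2 (gH w.length h) s D * (Z + R / 2 ^ h)) * 2 ^ h ≤
            (D * (2 * x + 1)) * 2 ^ h := by
          calc (sd2 (gH w.length h) s D * (Z + R / 2 ^ h)) * 2 ^ h
              = sd2 (gH w.length h) s D * (2 ^ h * Z + R / 2 ^ h * 2 ^ h) := by ring
            _ ≤ sd2 (gH w.length h) s D * (2 ^ h * Z + R) :=
                Nat.mul_le_mul_left _ (Nat.add_le_add_left hRle _)
            _ ≤ D * (2 ^ h * A.work w y r + r) := hc
            _ ≤ D * (2 ^ h * x + 2 ^ h * (x + 1)) :=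
                Nat.mul_le_mul_left _ (Nat.add_le_add (Nat.mul_le_mul_left _ hx) hr)
            _ = _ := by ring
        exact Nat.le_of_mul_le_mul_right h1 (by positivity)
      have hT : 2 * (Z + R / 2 ^ h + 1) + 1 ≤ gH w.length h * (gH w.length h *
          (gH w.length h / (s + (h + kap w.length) * D + 1))) := by
        have h1 : sd2 (gH w.length h) s D * (2 * (Z + R / 2 ^ h + 1) + 1) ≤
            sd2 (gH w.length h) s D * (gH w.length h * (gH w.length h *
              (gH w.length h / (s + (h + kap w.length) * D + 1)))) := by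
          calc sd2 (gH w.length h) s D * (2 * (Z + R / 2 ^ h + 1) + 1)
              = 2 * (sd2 (gH w.length h) s D * (Z + R / 2 ^ h)) +
                3 * sd2 (gH w.length h) s D := by ring
            _ ≤ 2 * (D * (2 * x + 1)) + 3 * sd2 (gH w.length h) s D := by omega
            _ = 2 * D * (2 * x + 1) + 3 * sd2 (gH w.length h) s D := by ring
            _ ≤ _ := q4
        exact Nat.le_of_mul_le_mul_left h1 hd1
      rw [(hA w y _ hP ho' h).2 r (Z + R / 2 ^ h + 1) _ ?_ hacc' ?_ ?_ ?_ ?_ ?_, eq01, if_pos hσ]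
      · norm_num
      · rw [e4]
        exact hfit
      · rw [e8]
        exact hrT
      · rw [e5]
        have h1 := H.PAR5.2 w.length
        have h2 : 6 ≤ kap w.length := by
          unfold kap
          omega
        have h3 : 2 ^ (h + kap w.length - 1) = 2 ^ h * 2 ^ (kap w.length - 1) := by
          generalize kap w.length = k at h2
          rw [← pow_add]
          congr 1
          omega
        rw [h3]
        exact lt_of_le_of_lt hrT (Nat.mul_lt_mul_of_pos_left h1 (by positivity))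
      · rw [e5, e6, e7]
        have : Z + 1 ≤ Z + R / 2 ^ h + 1 := by
          generalize R / 2 ^ h = q
          omega
        convert this
      · rw [e5, e6, e7]
        have h1 : R / 2 ^ h + 1 ≤ Z + R / 2 ^ h + 1 + 1 := by
          generalize R / 2 ^ h = q
          omega
        have : R + 1 ≤ 2 ^ h * (Z + R / 2 ^ h + 1 + 1) :=
          hRlt.trans (Nat.mul_le_mul_left _ h1)
        convert this
      · rw [e3]
        exact hT

/-- **Average-case hardness for machines with one head on a tape of any dimension, with free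
steps.** -/
theorem oh2_main (P : Sim) (H : Parts2) (c : ℕ) :
    ∃ (L : Set (List Bool)) (s : ℕ → List Bool), DLINSPACE L ∧
      (∀ n, (s n).length = n) ∧
      (∀ w, w ∈ L ↔ Odd ((List.zipWith and (s w.length) w).count true)) ∧
      ∀ (D : ℕ), 0 < D → ∀ (A : OneHead D) (C : ℝ), ∃ c' : ℝ, ∀ (n : ℕ) (α : List Bool), ∀ M,
        M = L ∨ M = Lᶜ →
        ({w : List Bool | w.length = n ∧
          (∀ v r, A.AcceptsAt w (α ++ v) r → w ∈ M) ∧
          (w ∈ M → ∃ v : List Bool, v.length ≤ c * n ∧ A.Within C w (α ++ v))}.ncard : ℝ) ≤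
          2 ^ n / 2 + c' * ((min α.length (n - α.length) : ℕ) + 1) *
            2 ^ (((n : ℝ) + α.length) / 2) := by
  obtain ⟨L, s, h1, h2, h3, h4⟩ := Pool.Agent.Helper28.Gen.avg_main (acc2 P) NT2 (LS.acc2 P)
    LS.NT2 c
  refine ⟨L, s, h1, h2, h3, fun D hD A C => ?_⟩
  obtain ⟨c', hc'⟩ := h4 (fun w y => ∃ r, A.AcceptsAt w y r) (A.Within C)
    (exists_good2 P H hD A C)
  refine ⟨c', fun n α M hM => ?_⟩
  refine le_trans ?_ (hc' n α M hM)
  have hfin : ({w : List Bool | w.length = n ∧
      (∀ v, (∃ r, A.AcceptsAt w (α ++ v) r) → w ∈ M) ∧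
      (w ∈ M → ∃ v : List Bool, v.length ≤ c * n ∧ A.Within C w (α ++ v))}).Finite :=
    (List.finite_length_eq Bool n).subset fun w hw => hw.1
  refine Nat.cast_le.2 (Set.ncard_le_ncard ?_ hfin)
  rintro w ⟨hw, hw1, hw2⟩
  exact ⟨hw, fun v ⟨r, hr⟩ => hw1 v r hr, hw2⟩

/-- Languages accepted by fast machines with one head are in linear space. -/
theorem oh2_lin (P : Sim) (H : Parts2) (c : ℕ) {D : ℕ} (hD : 0 < D)
    (A : OneHead D) (L : Set (List Bool)) (C : ℝ) (h1 : ∀ w y r, A.AcceptsAt w y r → w ∈ L)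
    (h2 : ∀ w ∈ L, ∃ y : List Bool, y.length ≤ c * w.length ∧ A.Within C w y) : DLINSPACE L :=
  Pool.Agent.Helper28.Gen.lin_main (acc2 P) NT2 (LS.acc2 P) LS.NT2 c L
    (fun w y => ∃ r, A.AcceptsAt w y r) (A.Within C) (exists_good2 P H hD A C)
    (fun w y ⟨r, hr⟩ => h1 w y r hr) h2

end Pool.Agent.Helper65.OH
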