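import Pool.Agent.Helper65.OH2.Main
import Pool.Agent.Helper65.OH.GEO
import Pool.Agent.Helper81.Tok2.Final
import Pool.Agent.Helper75.OH.STEP
import Pool.Agent.Helper59.OH.PAR5
import Pool.Agent.Helper24.OH2.CROSS2
import Pool.Agent.Helper94.OH2.MCOR2
import Pool.Agent.Helper25.OH2.PAR2

/-!
# All parts of the simulation of machines with one head and free steps
-/

namespace Pool.Agent.Helper65.OH

theorem parts2 : Parts2 where
  CROSS2 := Pool.Agent.Helper24.OH2.CROSS2
  MCOR2 := Pool.Agent.Helper94.OH2.MCOR2 GEO (Pool.Agent.Helper75.OH.STEP GEO)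
  PAR2 := Pool.Agent.Helper25.OH2.PAR2
  PAR5 := Pool.Agent.Helper59.OH.PAR5

/-- The simulation theorem for token machines with free silent steps. -/
noncomputable def simP : Pool.Agent.Helper28.Few.Sim :=
  Pool.Agent.Helper28.Few.simOf Pool.Agent.Helper81.Tok2.parts

end Pool.Agent.Helper65.OH
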