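import Pool.Agent.Helper65.OH2.Defs
import Pool.Agent.Helper65.OH.Goals
import Pool.Agent.Helper28.Few.Mach

/-!
# The parameters of the simulation of a machine with one head, with free steps
-/

namespace Pool.Agent.Helper65.OH

open Pool.Agent.Helper65.LinSpace Pool.Agent.Helper78.Mpc Pool.Agent.Helper28.Ram Finset Filter
open Pool.Agent.Helper81.Tok2 (gH)

/-- The largest side `d` of a cube with `(S + 1) * d ^ D ≤ g ^ 2`. -/
def sd2 (g S D : ℕ) : ℕ := ∑ j ∈ range (g * g), le01 ((S + 1) * (j + 1) ^ D) (g * g)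

/-- The number `h`, replaced by `0` if it is too large. -/
def hY (n S D h : ℕ) : ℕ := ifz (le01 ((S + (h + kap n) * D + 2) * h) (gH n h)) 0 h

/-- The number of intervals of a block. -/
def gY (n S D h : ℕ) : ℕ := gH n (hY n S D h)

/-- All parameters; `D` is the dimension; the shift is reduced modulo the side. -/
def prm2 (eA eN eW st x y S D h o : ℕ) : Prm where
  eA := eA
  eN := eN
  eW := eW
  st := st
  Λ := LW (Nat.log 2 x)
  β := 2 ^ (2 * ll (Nat.log 2 x))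
  B := CR x
  x := x
  y := y
  S := min S (gY (Nat.log 2 x) S (dm (Nat.log 2 x) D) h - 1)
  κ := hY (Nat.log 2 x) S (dm (Nat.log 2 x) D) h + kap (Nat.log 2 x)
  D := dm (Nat.log 2 x) D
  d := sd2 (gY (Nat.log 2 x) S (dm (Nat.log 2 x) D) h)
    (min S (gY (Nat.log 2 x) S (dm (Nat.log 2 x) D) h - 1)) (dm (Nat.log 2 x) D)
  o := o % sd2 (gY (Nat.log 2 x) S (dm (Nat.log 2 x) D) h)
    (min S (gY (Nat.log 2 x) S (dm (Nat.log 2 x) D) h - 1)) (dm (Nat.log 2 x) D)
  Tc := 2 ^ hY (Nat.log 2 x) S (dm (Nat.log 2 x) D) h * (Nat.log 2 x + 2) ^ 4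
  σ := min (min S (gY (Nat.log 2 x) S (dm (Nat.log 2 x) D) h - 1) +
      (hY (Nat.log 2 x) S (dm (Nat.log 2 x) D) h + kap (Nat.log 2 x)) * dm (Nat.log 2 x) D)
    (gY (Nat.log 2 x) S (dm (Nat.log 2 x) D) h - 1) + 1
  a := gY (Nat.log 2 x) S (dm (Nat.log 2 x) D) h * gY (Nat.log 2 x) S (dm (Nat.log 2 x) D) h

/-- The token machine of the parameters. -/
def Prm.tok2 (m : Prm) (h g : ℕ) : Pool.Agent.Helper81.Tok2.Mach where
  σ := m.σ
  a := m.a
  b := g / m.σ
  G := g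
  h := h
  A := m.fA
  N := m.fN
  W := m.fW
  q0 := m.q0
  M0 := fun _ => m.M0

end Pool.Agent.Helper65.OH
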