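import Pool.Agent.Helper65.OH.Defs
import Mathlib.Analysis.SpecialFunctions.Pow.Real

/-!
# Turing machines with one head on a tape of dimension `D`: steps which are not free
-/

namespace Pool.Agent.Helper65.OH

variable {D : ℕ}

/-- After the step `t` the head is on a cell which it has not visited since the last change of the
content of a cell (every step which changes the content of a cell has this property). -/
def OneHead.New (A : OneHead D) (w y : List Bool) (t : ℕ) : Prop :=
  ∀ u ≤ t, (A.conf w y u).h = (A.conf w y (t + 1)).h →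
    ∃ v, u ≤ v ∧ v ≤ t ∧ (A.conf w y (v + 1)).M ≠ (A.conf w y v).M

/-- The number of the steps before the time `r` after which the head is on a cell which it has not
visited since the last change of the content of a cell. All other steps are free. -/
noncomputable def OneHead.work (A : OneHead D) (w y : List Bool) (r : ℕ) : ℕ :=
  {t : ℕ | t < r ∧ A.New w y t}.ncard

/-- `A` accepts the input word `w` with the guessed word `y` at some time `r` and within the
following bounds, where `n` is the length of `w`. States, addresses and the contents of the cells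
have at most `s` bits, and at most `x` steps are not free. The running time is at most
`2 ^ h (x + 1)`. For `l = h + ⌊log₂ n⌋ + 1`:
`x s ^ (1 + 1 / D) l ^ 4 ≤ C (n + 1) ^ (3 / 2 + 1 / D)` and `(s + l) (h + 1) l ≤ C (n + 1) ^ (1 / 2)`. -/
def OneHead.Within (A : OneHead D) (C : ℝ) (w y : List Bool) : Prop :=
  ∃ r s x h : ℕ, A.work w y r ≤ x ∧ r ≤ 2 ^ h * (x + 1) ∧
    (x : ℝ) * (s : ℝ) ^ (1 + 1 / (D : ℝ)) * ((h : ℝ) + ((Nat.log 2 w.length : ℝ) + 1)) ^ 4 ≤
      C * ((w.length : ℝ) + 1) ^ ((3 : ℝ) / 2 + 1 / (D : ℝ)) ∧
    ((s : ℝ) + ((h : ℝ) + ((Nat.log 2 w.length : ℝ) + 1))) * ((h : ℝ) + 1) *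
      ((h : ℝ) + ((Nat.log 2 w.length : ℝ) + 1)) ≤ C * ((w.length : ℝ) + 1) ^ ((1 : ℝ) / 2) ∧
    A.Fits w y r s ∧ A.AcceptsAt w y r

end Pool.Agent.Helper65.OH
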