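import Pool.Agent.Helper65.OH2.Num

/-!
# Machines with one head and free steps: the statements of the parts
-/

namespace Pool.Agent.Helper65.OH

open Pool.Agent.Helper65.LinSpace Pool.Agent.Helper78.Mpc Pool.Agent.Helper28.Ram Finset Filter
open Pool.Agent.Helper81.Tok2 (gH)
open Pool.Agent.Helper28.Few (mcf)

/-- CROSS2. Shift of a grid; the steps with the property `N` are counted `H` times. As in
`Pool/Agent/Helper40/OH/CROSS.lean`: for each `t < r` and `k < D` there is at most one shift `o < d` with
`(p t k + o) / d ≠ (p (t + 1) k + o) / d` (lemma `card_le_one'` there). So the sum over `o < d` of the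
number in brackets on the left is at most the right side, and the smallest of the `d` terms is at
most the `d`-th part of it. -/
def CROSS2_stmt : Prop := ∀ (D r d H : ℕ) (N : ℕ → Prop) [DecidablePred N] (p : ℕ → ℕ → ℕ), 0 < d →
    (∀ t < r, ∀ k < D, p (t + 1) k ≤ p t k + 1 ∧ p t k ≤ p (t + 1) k + 1) →
    ∃ o < d, d * (H * ((range r).filter fun t => N t ∧
        ∃ k < D, (p t k + o) / d ≠ (p (t + 1) k + o) / d).card +
      ((range r).filter fun t => ∃ k < D, (p t k + o) / d ≠ (p (t + 1) k + o) / d).card) ≤
      D * (H * ((range r).filter N).card + r)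

open Classical in
/-- MCOR2 (may assume GEO, STEP; all the lemmas of `Pool/Agent/Helper53/OH/MCOR.lean` can be used, with
the same codes `eA, eN, eW` and the same `c`). `mcf` is the macro run of
`Pool/Agent/Helper28/Few/Macro.lean` of the machine on numbers (`m.conf T` is
`cf m.fA m.fN m.fW m.q0 (fun _ => m.M0) T`). The first claim follows from `macro_sound` and `inv1`.
For the second claim let `r'` be the first accepting time, `τ T` the time reached after `T` steps of the
machine on numbers (`inv2`), `Z t` the number of the steps `u < t` which are new (`New`) and lead into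
another cube. The contents of the machine on numbers are always smaller than
`2 ^ ((S + 1) * d ^ D) ≤ 2 ^ a` (`M0`, and every value of `sv` is a `tab` or the old content).
(1) Let `τ T < r'`, and suppose that no step `u` of `A` with `τ T ≤ u < τ (T + 1)` changes the content of a
cell. Then the step `T` of the machine on numbers does not change the content: for each
inner step `nw = num (written word) = num (old word) = dig v (cel q)`, so `sv q v` is
`tab (dig v) = v` (`tab_dig`; extend `loop2` by this invariant). (2) So if the step `T` changes the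
content then some step `v` of `A`, `τ T ≤ v < τ (T + 1)`, changes the content of a cell. If
`τ (T + 1) ≠ r'` then the step `s = τ (T + 1) - 1` of `A` leads into another cube (`loop2`), and it is new:
let `u ≤ s` be a time at which the head is on the same cell as at the time `s + 1`; if `u ≤ v`, `v` is a change
between `u` and `s`; if `v < u` then `τ T ≤ u ≤ s`, so the cell is in the cube of the time `τ T`,
contradiction. (3) Induction on `T`: the number of changes `chs … T` (`Few/Macro.lean`) is at most
`Z (τ T)` if `τ T < r'`, and at most `Z r' + 1` if `τ T = r'` (after acceptance nothing is changed: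
`acc_step`; the machine on numbers has the property `Absorb` for `acc q := accN (m.wq q) = 1`, for
contents smaller than `2 ^ a`). (4) By `inv2` the machine on numbers has accepted after `R + 1` steps
where `R` is the number of the steps `t < r` which lead into another cube, and `macro_complete` gives
the claim. -/
def MCOR2_stmt : Prop := ∀ {D : ℕ} (A : OneHead D), ∃ eA eN eW c : ℕ, ∀ (w y : List Bool) (m : Prm),
    Par A eA eN eW c w y m → m.o < m.d → ∀ h : ℕ,
    (∀ T, accN (m.wq (mcf m.fA m.fN m.fW h m.q0 (fun _ => m.M0) T).1) = 1 →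
      ∃ t, A.AcceptsAt w y t) ∧
    ∀ r x T, A.Fits w y r m.S → A.AcceptsAt w y r → r ≤ m.Tc → r < 2 ^ (m.κ - 1) →
      ((range r).filter fun t => A.New w y t ∧ ∃ k < D, (co m.κ (A.conf w y t).h k + m.o) / m.d ≠
        (co m.κ (A.conf w y (t + 1)).h k + m.o) / m.d).card + 1 ≤ x →
      ((range r).filter fun t => ∃ k < D, (co m.κ (A.conf w y t).h k + m.o) / m.d ≠
        (co m.κ (A.conf w y (t + 1)).h k + m.o) / m.d).card + 1 ≤ 2 ^ h * (x + 1) →
      2 * x + 1 ≤ T →
      accN (m.wq (mcf m.fA m.fN m.fW h m.q0 (fun _ => m.M0) T).1) = 1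

/-- PAR2. As PAR (`Pool/Agent/Helper64/OH/PAR.lean`) with `ll n` replaced by `L = ll n + h` and `gR n` by
`g = gH n h`; `n + 1 ≤ g * g * L` is `lt_gH_sq` of `Pool/Agent/Helper28/Few/Par.lean` (see also `ev_few` there).
With `u = √L`, `v = √(n + 1) ≤ g u`: the second hypothesis gives `(s + L) (h + 1) u ≤ |C| g`, so for large
`u` (that is, for large `n`) `100 (D + 1) (s + L) (h + 1) ≤ g`, which gives the first two claims, since
`(h + kap n) D + 2 ≤ 12 D L`. The third claim follows from the first hypothesis. For the last claim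
(`σ = s + (h + kap n) D + 1 ≤ 12 D s L`) show as in PAR that `x u ≤ 96 |C| D (d (g (g b)))`, `b = g / σ`, so
`16 D x ≤ d (g (g b))` for large `n`, and `g * g ≥ 100 D`, `b ≥ 1`. (`sd2 g S D` is the same as `sd'` with `g` in
place of `gR n`; `side_aux` in `Pool/Agent/Helper90/OH/OKS.lean` gives `1 ≤ d` and
`g * g < (s + 1) (d + 1) ^ D`.) -/
def PAR2_stmt : Prop := ∀ (D : ℕ) (C : ℝ), 0 < D → ∀ᶠ n : ℕ in atTop, ∀ x s h : ℕ, 1 ≤ s →
    (x : ℝ) * (s : ℝ) ^ (1 + 1 / (D : ℝ)) * ((h : ℝ) + ((Nat.log 2 n : ℝ) + 1)) ^ 4 ≤
      C * ((n : ℝ) + 1) ^ ((3 : ℝ) / 2 + 1 / (D : ℝ)) →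
    ((s : ℝ) + ((h : ℝ) + ((Nat.log 2 n : ℝ) + 1))) * ((h : ℝ) + 1) *
      ((h : ℝ) + ((Nat.log 2 n : ℝ) + 1)) ≤ C * ((n : ℝ) + 1) ^ ((1 : ℝ) / 2) →
    (s + (h + kap n) * D + 2) * h ≤ gH n h ∧ s + (h + kap n) * D + 1 ≤ gH n h ∧
      x + 1 ≤ (n + 2) ^ 4 ∧
      2 * D * (2 * x + 1) + 3 * sd2 (gH n h) s D ≤ sd2 (gH n h) s D *
        (gH n h * (gH n h * (gH n h / (s + (h + kap n) * D + 1))))

end Pool.Agent.Helper65.OH
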